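import Pool.Agent.H16.CS.Targets

/-!
# A rational combination with coprime characteristic polynomials (module DEN of cps_modules)
-/

set_option autoImplicit false

open Polynomial

namespace Pool.Agent.H4.CS

open Pool.Agent.H16.CS

lemma den_eig {K n : Type} [Field K] [Fintype n] [DecidableEq n] {M : Matrix n n K} {a : K}
    {v : n → K} (h : M.mulVec v = a • v) (p : Polynomial K) :
    (aeval M p).mulVec v = p.eval a • v := by
  induction p using Polynomial.induction_on' with
  | add p q hp hq => rw [map_add, Matrix.add_mulVec, hp, hq, eval_add, add_smul]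
  | monomial k c =>
    rw [aeval_monomial, eval_monomial]
    have h1 : ∀ k : ℕ, (M ^ k).mulVec v = a ^ k • v := by
      intro k
      induction k with
      | zero => simp
      | succ k ih => rw [pow_succ, ← Matrix.mulVec_mulVec, h, Matrix.mulVec_smul, ih, smul_smul,
          pow_succ, mul_comm]
    rw [← Algebra.smul_def, Matrix.smul_mulVec, h1, smul_smul]

lemma den_hom {A K n : Type} [CommRing A] [CommRing K] [Fintype n] [DecidableEq n] (φ : A →+* K)
    (N : Matrix n n A) (p : Polynomial A) :
    φ (aeval N p).det = (aeval (φ.mapMatrix N) (p.map φ)).det := by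
  rw [RingHom.map_det, aeval_def, hom_eval₂, aeval_def, eval₂_map]
  have h : (φ.mapMatrix : Matrix n n A →+* Matrix n n K).comp (algebraMap A (Matrix n n A)) =
      (algebraMap K (Matrix n n K)).comp φ := by
    ext a i j
    simp only [RingHom.coe_comp, Function.comp_apply, RingHom.mapMatrix_apply, Matrix.map_apply,
      Matrix.algebraMap_matrix_apply]
    split_ifs
    · simp
    · simp
  rw [h]

lemma den_cop {K n : Type} [Field K] [Fintype n] [DecidableEq n] (M : Matrix n n K)
    (p : Polynomial K) (h : (aeval M p).det ≠ 0) : IsCoprime M.charpoly p := by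
  rw [isCoprime_iff_aeval_ne_zero_of_isAlgClosed K (AlgebraicClosure K)]
  intro a
  by_contra hc
  push Not at hc
  obtain ⟨h1, h2⟩ := hc
  obtain ⟨ψ, hψ⟩ : ∃ ψ, ψ = algebraMap K (AlgebraicClosure K) := ⟨_, rfl⟩
  have h3 : (M.map ψ).charpoly.eval a = 0 := by
    rw [Matrix.charpoly_map, eval_map, hψ, ← aeval_def]
    exact h1
  rw [Matrix.eval_charpoly, ← Matrix.exists_mulVec_eq_zero_iff] at h3
  obtain ⟨v, hv, hv0⟩ := h3
  have h4 : (M.map ψ).mulVec v = a • v := by
    rw [Matrix.sub_mulVec, sub_eq_zero] at hv0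
    rw [← hv0]
    ext i
    simp [Matrix.scalar_apply, Matrix.mulVec_diagonal]
  have h5 := den_eig h4 (p.map ψ)
  have h6 : (p.map ψ).eval a = 0 := by
    rw [eval_map, hψ, ← aeval_def]
    exact h2
  rw [h6, zero_smul] at h5
  have h7 : (aeval (M.map ψ) (p.map ψ)).det = 0 :=
    Matrix.exists_mulVec_eq_zero_iff.1 ⟨v, hv, h5⟩
  have h8 := den_hom ψ M p
  rw [RingHom.mapMatrix_apply, h7] at h8
  rw [hψ] at h8
  exact h ((map_eq_zero _).1 h8)

theorem den : T_DEN := by
  intro K _ _ ι κ _ _ H _ _ _ S _ F c hc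
  classical
  obtain ⟨m, hm⟩ : ∃ m : ι → ℕ, m = fun i => Module.finrank K (H i) := ⟨_, rfl⟩
  have b : ∀ i, Module.Basis (Fin (m i)) K (H i) := by
    intro i
    rw [hm]
    exact Module.finBasis K (H i)
  obtain ⟨N, hN⟩ : ∃ N : ∀ i, Matrix (Fin (m i)) (Fin (m i)) (MvPolynomial κ K), N = fun i =>
    ∑ k, (MvPolynomial.X k : MvPolynomial κ K) •
      ((LinearMap.toMatrix (b i) (b i) (F k i)).map MvPolynomial.C) := ⟨_, rfl⟩
  have hev : ∀ (x : κ → K) (i : ι), (MvPolynomial.eval x).mapMatrix (N i) =
      LinearMap.toMatrix (b i) (b i) (∑ k, x k • F k i) := by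
    intro x i
    rw [hN, map_sum, map_sum]
    refine Finset.sum_congr rfl fun k _ => ?_
    have h0 : LinearMap.toMatrix (b i) (b i) (x k • F k i) =
        x k • LinearMap.toMatrix (b i) (b i) (F k i) := map_smul _ _ _
    rw [h0]
    ext r s
    simp only [RingHom.mapMatrix_apply, Matrix.map_apply, Matrix.smul_apply, smul_eq_mul, map_mul,
      MvPolynomial.eval_X, MvPolynomial.eval_C]
  have hevd : ∀ (x : κ → K) (i j : ι), MvPolynomial.eval x (aeval (N i) (N j).charpoly).det =
      (aeval (LinearMap.toMatrix (b i) (b i) (∑ k, x k • F k i))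
        (∑ k, x k • F k j).charpoly).det := by
    intro x i j
    rw [den_hom, ← Matrix.charpoly_map, hev]
    have h1 : (N j).map (MvPolynomial.eval x) =
        LinearMap.toMatrix (b j) (b j) (∑ k, x k • F k j) := hev x j
    rw [h1, LinearMap.charpoly_toMatrix]
  obtain ⟨D, hD⟩ : ∃ D : MvPolynomial κ K, D = ∏ i, ∏ j,
    if S i ∧ ¬ S j then (aeval (N i) (N j).charpoly).det else 1 := ⟨_, rfl⟩
  have hDc : MvPolynomial.eval c D ≠ 0 := by
    rw [hD, map_prod]
    refine Finset.prod_ne_zero_iff.2 fun i _ => ?_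
    rw [map_prod]
    refine Finset.prod_ne_zero_iff.2 fun j _ => ?_
    by_cases h : S i ∧ ¬ S j
    · rw [if_pos h, hevd, hc i, hc j, if_pos h.1, if_neg h.2]
      have h1 : (0 : Module.End K (H j)).charpoly = X ^ m j := by
        rw [← LinearMap.charpoly_toMatrix (0 : Module.End K (H j)) (b j), map_zero,
          Matrix.charpoly_zero, Fintype.card_fin]
      rw [h1, map_pow, aeval_X]
      have h2 : LinearMap.toMatrix (b i) (b i) (1 : Module.End K (H i)) = 1 :=
        LinearMap.toMatrix_id (b i)
      rw [h2, one_pow, Matrix.det_one]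
      exact one_ne_zero
    · rw [if_neg h, map_one]
      exact one_ne_zero
  have hD0 : D ≠ 0 := by
    intro h
    rw [h, map_zero] at hDc
    exact hDc rfl
  have hex : ∃ q : κ → ℚ, MvPolynomial.eval (fun k => (q k : K)) D ≠ 0 := by
    by_contra hcon
    push Not at hcon
    apply hD0
    refine MvPolynomial.funext_set (fun _ => Set.range ((↑) : ℚ → K))
      (fun _ => Set.infinite_range_of_injective Rat.cast_injective) fun x hx => ?_
    rw [map_zero]
    have h1 : ∀ k, ∃ q : ℚ, (q : K) = x k := fun k => hx k (Set.mem_univ k)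
    choose q hq using h1
    have h2 := hcon q
    have h3 : (fun k => (q k : K)) = x := funext hq
    rw [h3] at h2
    exact h2
  obtain ⟨q, hq⟩ := hex
  refine ⟨q, fun i j hi hj => ?_⟩
  rw [hD, map_prod] at hq
  have h1 := Finset.prod_ne_zero_iff.1 hq i (Finset.mem_univ i)
  rw [map_prod] at h1
  have h2 := Finset.prod_ne_zero_iff.1 h1 j (Finset.mem_univ j)
  rw [if_pos ⟨hi, hj⟩, hevd] at h2
  have h3 := den_cop _ _ h2
  rw [LinearMap.charpoly_toMatrix] at h3
  exact h3

end Pool.Agent.H4.CS
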