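import Pool.Agent.H16.CS.Targets

/-!
# Rationality of both parts (module RAT of cps_modules)
-/

set_option autoImplicit false

open Polynomial

namespace Pool.Agent.H4.CS

open Pool.Agent.H16.CS

section

variable {Ω : Type} [Field Ω]

/-- the reversed polynomial -/
noncomputable def rE (A : Multiset Ω) : Polynomial Ω := (A.map fun x => 1 - C x * X).prod

lemma rE_cons (a : Ω) (s : Multiset Ω) : rE (a ::ₘ s) = (1 - C a * X) * rE s := by
  unfold rE
  rw [Multiset.map_cons, Multiset.prod_cons]

lemma rE_coeff_zero (A : Multiset Ω) : (rE A).coeff 0 = 1 := by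
  induction A using Multiset.induction_on with
  | empty => simp [rE]
  | cons a s ih =>
    rw [rE_cons, mul_coeff_zero, ih]
    simp

lemma rE_ne_zero (A : Multiset Ω) : rE A ≠ 0 := by
  intro h
  have := rE_coeff_zero A
  rw [h, coeff_zero] at this
  exact zero_ne_one this

lemma lin_deg (a : Ω) : (1 - C a * X : Polynomial Ω).natDegree ≤ 1 := by
  refine (natDegree_sub_le _ _).trans ?_
  rw [natDegree_one]
  exact max_le (Nat.zero_le _) ((natDegree_C_mul_le a X).trans natDegree_X_le)

lemma lin_deg_eq (a : Ω) (ha : a ≠ 0) : (1 - C a * X : Polynomial Ω).natDegree = 1 := by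
  have h1 : (1 - C a * X : Polynomial Ω) = C (-a) * X + C 1 := by
    rw [C_neg, C_1]
    ring
  rw [h1]
  exact natDegree_linear (neg_ne_zero.2 ha)

lemma rE_deg (A : Multiset Ω) : (rE A).natDegree ≤ A.card := by
  induction A using Multiset.induction_on with
  | empty => simp [rE]
  | cons a s ih =>
    rw [rE_cons, Multiset.card_cons, add_comm]
    exact natDegree_mul_le.trans (add_le_add (lin_deg a) ih)

lemma rE_deg_eq (A : Multiset Ω) (h : (0 : Ω) ∉ A) : (rE A).natDegree = A.card := by
  induction A using Multiset.induction_on with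
  | empty => simp [rE]
  | cons a s ih =>
    have ha : a ≠ 0 := fun e => h (e ▸ Multiset.mem_cons_self a s)
    have h1 : (1 - C a * X : Polynomial Ω) ≠ 0 := by
      intro e
      have := lin_deg_eq a ha
      rw [e, natDegree_zero] at this
      exact zero_ne_one this
    rw [rE_cons, natDegree_mul h1 (rE_ne_zero s), lin_deg_eq a ha,
      ih fun h0 => h (Multiset.mem_cons_of_mem h0), Multiset.card_cons, add_comm]

lemma lin_coprime {x y : Ω} (h : x ≠ y) :
    IsCoprime (1 - C x * X : Polynomial Ω) (1 - C y * X) := by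
  have h1 : y - x ≠ 0 := sub_ne_zero.2 h.symm
  refine ⟨C (y / (y - x)), C (-x / (y - x)), ?_⟩
  have h2 : C (y / (y - x)) * (1 - C x * X) + C (-x / (y - x)) * (1 - C y * X) =
      C (y / (y - x) + -x / (y - x)) - C (y / (y - x) * x + -x / (y - x) * y) * X := by
    simp only [C_add, C_mul]
    ring
  rw [h2]
  have h3 : y / (y - x) + -x / (y - x) = 1 := by
    field_simp
    ring
  have h4 : y / (y - x) * x + -x / (y - x) * y = 0 := by
    field_simp
    ring
  rw [h3, h4, C_0, zero_mul, sub_zero, C_1]

lemma rE_coprime (A B : Multiset Ω) (h : ∀ x ∈ A, x ∉ B) : IsCoprime (rE A) (rE B) := by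
  induction A using Multiset.induction_on with
  | empty =>
    have : rE (0 : Multiset Ω) = 1 := by simp [rE]
    rw [this]
    exact isCoprime_one_left
  | cons a s ih =>
    rw [rE_cons]
    refine IsCoprime.mul_left ?_ (ih fun x hx => h x (Multiset.mem_cons_of_mem hx))
    have ha := h a (Multiset.mem_cons_self a s)
    clear ih h
    induction B using Multiset.induction_on with
    | empty =>
      have : rE (0 : Multiset Ω) = 1 := by simp [rE]
      rw [this]
      exact isCoprime_one_right
    | cons b t ih =>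
      rw [rE_cons]
      refine IsCoprime.mul_right (lin_coprime ?_) (ih fun h0 => ha (Multiset.mem_cons_of_mem h0))
      intro e
      exact ha (e ▸ Multiset.mem_cons_self a t)

/-- the Euler operator -/
noncomputable def th (F : PowerSeries Ω) : PowerSeries Ω :=
  PowerSeries.mk fun n => (n : Ω) * PowerSeries.coeff n F

lemma th_mul (F G : PowerSeries Ω) : th (F * G) = th F * G + F * th G := by
  ext n
  unfold th
  rw [map_add, PowerSeries.coeff_mk, PowerSeries.coeff_mul, PowerSeries.coeff_mul,
    PowerSeries.coeff_mul, Finset.mul_sum, ← Finset.sum_add_distrib]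
  refine Finset.sum_congr rfl fun p hp => ?_
  rw [Finset.HasAntidiagonal.mem_antidiagonal] at hp
  rw [PowerSeries.coeff_mk, PowerSeries.coeff_mk, ← hp]
  push_cast
  ring

/-- the generating series of the power sums -/
noncomputable def rS (A : Multiset Ω) : PowerSeries Ω :=
  PowerSeries.mk fun n => if n = 0 then 0 else psm A n

lemma th_lin (a : Ω) : th ((1 - C a * X : Polynomial Ω) : PowerSeries Ω) =
    -(((C a * X : Polynomial Ω)) : PowerSeries Ω) := by
  ext n
  unfold th
  rw [PowerSeries.coeff_mk, map_neg, coeff_coe, coeff_coe, coeff_sub, coeff_C_mul]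
  rcases n with _ | _ | n
  · simp
  · simp [coeff_one]
  · simp [coeff_one, coeff_X]

lemma geo (a : Ω) : ((1 - C a * X : Polynomial Ω) : PowerSeries Ω) *
    (PowerSeries.mk fun n => if n = 0 then 0 else a ^ n) =
      ((C a * X : Polynomial Ω) : PowerSeries Ω) := by
  ext n
  rw [coe_sub, coe_mul, coe_one, coe_C, coe_X, sub_mul, one_mul, mul_assoc, map_sub,
    PowerSeries.coeff_C_mul, PowerSeries.coeff_mk, PowerSeries.coeff_C_mul]
  rcases n with _ | n
  · simp
  · rw [PowerSeries.coeff_succ_X_mul, PowerSeries.coeff_mk, if_neg (Nat.succ_ne_zero n)]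
    rcases n with _ | n
    · simp
    · rw [if_neg (Nat.succ_ne_zero n), PowerSeries.coeff_X, if_neg (by omega)]
      ring

lemma th_rE (A : Multiset Ω) : th ((rE A : Polynomial Ω) : PowerSeries Ω) =
    -(((rE A : Polynomial Ω) : PowerSeries Ω) * rS A) := by
  induction A using Multiset.induction_on with
  | empty =>
    ext n
    have h1 : rE (0 : Multiset Ω) = 1 := by simp [rE]
    have h2 : rS (0 : Multiset Ω) = 0 := by
      ext n
      simp [rS, psm]
    rw [h1, h2, mul_zero, neg_zero, map_zero, coe_one]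
    unfold th
    rw [PowerSeries.coeff_mk, PowerSeries.coeff_one]
    by_cases hn : n = 0
    · simp [hn]
    · simp [hn]
  | cons a s ih =>
    have h1 : rS (a ::ₘ s) = rS s + PowerSeries.mk fun n => if n = 0 then 0 else a ^ n := by
      ext n
      rw [map_add]
      unfold rS
      rw [PowerSeries.coeff_mk, PowerSeries.coeff_mk, PowerSeries.coeff_mk]
      by_cases hn : n = 0
      · simp [hn]
      · rw [if_neg hn, if_neg hn, if_neg hn]
        unfold psm
        rw [Multiset.map_cons, Multiset.sum_cons, add_comm]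
    rw [rE_cons, coe_mul, th_mul, ih, th_lin, h1, mul_add, mul_assoc _ _
      (PowerSeries.mk fun n => if n = 0 then 0 else a ^ n), mul_comm ((rE s : Polynomial Ω) :
      PowerSeries Ω) (PowerSeries.mk fun n => if n = 0 then 0 else a ^ n), ← mul_assoc _
      (PowerSeries.mk fun n => if n = 0 then 0 else a ^ n), geo]
    ring

lemma refl_rE (A : Multiset Ω) : reflect A.card (A.map fun x => X - C x).prod = rE A := by
  induction A using Multiset.induction_on with
  | empty =>
    have h1 : rE (0 : Multiset Ω) = 1 := by simp [rE]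
    rw [h1, Multiset.map_zero, Multiset.prod_zero, Multiset.card_zero]
    have := reflect_C (1 : Ω) 0
    simp
  | cons a s ih =>
    rw [rE_cons, Multiset.map_cons, Multiset.prod_cons, Multiset.card_cons, add_comm s.card 1,
      reflect_mul _ _ (natDegree_X_sub_C_le a)
        (le_of_eq (natDegree_multiset_prod_X_sub_C_eq_card s)), ih]
    congr 1
    rw [reflect_sub, reflect_C, pow_one]
    congr 1
    have h1 := reflect_monomial (R := Ω) 1 1
    rw [revAt_le le_rfl, pow_one, Nat.sub_self, pow_zero] at h1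
    exact h1

end

theorem rat : T_RAT := by
  intro Ω _ _ A B p hdis hp
  obtain ⟨Q, hQ⟩ : ∃ Q, Q = (algebraMap ℚ Ω).fieldRange := ⟨_, rfl⟩
  have hQr : ∀ q : ℚ, (q : Ω) ∈ Q := by
    intro q
    rw [hQ]
    exact ⟨q, eq_ratCast _ q⟩
  -- the quotient
  obtain ⟨EA, hEA⟩ : ∃ EA, EA = ((rE A : Polynomial Ω) : PowerSeries Ω) := ⟨_, rfl⟩
  obtain ⟨EB, hEB⟩ : ∃ EB, EB = ((rE B : Polynomial Ω) : PowerSeries Ω) := ⟨_, rfl⟩
  have hEA0 : PowerSeries.constantCoeff EA = 1 := by
    rw [hEA, ← PowerSeries.coeff_zero_eq_constantCoeff_apply, coeff_coe, rE_coeff_zero]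
  have hEB0 : PowerSeries.constantCoeff EB = 1 := by
    rw [hEB, ← PowerSeries.coeff_zero_eq_constantCoeff_apply, coeff_coe, rE_coeff_zero]
  have hEAne : EA ≠ 0 := by
    intro h
    rw [h, map_zero] at hEA0
    exact zero_ne_one hEA0
  obtain ⟨Z, hZ⟩ : ∃ Z, Z = EB * EA⁻¹ := ⟨_, rfl⟩
  have hZE : Z * EA = EB := by
    rw [hZ, mul_assoc, mul_comm EA⁻¹, PowerSeries.mul_inv_cancel EA (by rw [hEA0]; exact one_ne_zero),
      mul_one]
  have hthZ : th Z = Z * (rS A - rS B) := by
    apply mul_right_cancel₀ hEAne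
    have h1 := th_mul Z EA
    rw [hZE, hEB, th_rE, ← hEB] at h1
    have h2 : th EA = -(EA * rS A) := by
      rw [hEA, th_rE]
    rw [h2] at h1
    have h3 : th Z * EA = -(EB * rS B) + Z * (EA * rS A) := by
      rw [h1]
      ring
    rw [h3, ← hZE]
    ring
  have hz : ∀ n, PowerSeries.coeff n Z ∈ Q := by
    intro n
    induction n using Nat.strong_induction_on with
    | _ n ih =>
      rcases Nat.eq_zero_or_pos n with h0 | h0
      · rw [h0, PowerSeries.coeff_zero_eq_constantCoeff_apply]
        have h1 := congrArg PowerSeries.constantCoeff hZE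
        rw [map_mul, hEA0, hEB0, mul_one] at h1
        rw [h1]
        exact Q.one_mem
      · have h1 := congrArg (PowerSeries.coeff n) hthZ
        unfold th at h1
        rw [PowerSeries.coeff_mk, PowerSeries.coeff_mul] at h1
        have h2 : (n : Ω) * PowerSeries.coeff n Z ∈ Q := by
          rw [h1]
          refine Q.sum_mem fun q hq => ?_
          rw [Finset.HasAntidiagonal.mem_antidiagonal] at hq
          rcases Nat.eq_zero_or_pos q.2 with h3 | h3
          · have h4 : PowerSeries.coeff q.2 (rS A - rS B) = 0 := by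
              rw [h3, map_sub]
              unfold rS
              rw [PowerSeries.coeff_mk, PowerSeries.coeff_mk, if_pos rfl, if_pos rfl, sub_zero]
            rw [h4, mul_zero]
            exact Q.zero_mem
          · refine Q.mul_mem (ih q.1 (by omega)) ?_
            rw [map_sub]
            unfold rS
            rw [PowerSeries.coeff_mk, PowerSeries.coeff_mk, if_neg (by omega), if_neg (by omega),
              hp _ h3]
            exact hQr _
        have h3 : (n : Ω) ≠ 0 := by
          exact_mod_cast h0.ne'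
        have h4 : PowerSeries.coeff n Z = (n : Ω)⁻¹ * ((n : Ω) * PowerSeries.coeff n Z) := by
          rw [← mul_assoc, inv_mul_cancel₀ h3, one_mul]
        rw [h4]
        exact Q.mul_mem (Q.inv_mem (by exact_mod_cast hQr n)) h2
  -- a linear functional
  obtain ⟨r, hr1, hrm⟩ : ∃ r : Ω →+ ℚ, r 1 = 1 ∧ ∀ (q : ℚ) (x : Ω), r (q * x) = q * r x := by
    obtain ⟨g, hg⟩ := LinearMap.exists_leftInverse_of_injective (Algebra.linearMap ℚ Ω)
      (LinearMap.ker_eq_bot.2 (algebraMap ℚ Ω).injective)
    refine ⟨g.toAddMonoidHom, ?_, fun q x => ?_⟩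
    · have := LinearMap.congr_fun hg 1
      rw [LinearMap.comp_apply, Algebra.linearMap_apply, map_one] at this
      exact this
    · have h1 : (q : Ω) * x = q • x := by
        rw [Algebra.smul_def, eq_ratCast]
      show g ((q : Ω) * x) = q * g x
      rw [h1, map_smul, smul_eq_mul]
  obtain ⟨r', hr'⟩ : ∃ r' : Ω → Ω, r' = fun x => ((r x : ℚ) : Ω) := ⟨_, rfl⟩
  have hr'0 : r' 0 = 0 := by rw [hr']; simp
  have hr'1 : r' 1 = 1 := by rw [hr']; simp [hr1]
  have hr'Q : ∀ x, r' x ∈ Q := fun x => by
    rw [hr']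
    exact hQr _
  have hr'm : ∀ z ∈ Q, ∀ x, r' (z * x) = z * r' x := by
    intro z hz x
    rw [hQ] at hz
    obtain ⟨q, rfl⟩ := hz
    rw [eq_ratCast, hr']
    simp only
    rw [hrm]
    push_cast
    ring
  have hr's : ∀ (s : Finset (ℕ × ℕ)) (g : ℕ × ℕ → Ω), r' (∑ q ∈ s, g q) = ∑ q ∈ s, r' (g q) := by
    intro s g
    rw [hr']
    simp only
    rw [map_sum]
    push_cast
    rfl
  -- the projected polynomials
  have hpoly : ∀ M : Multiset Ω, ∃ P : Polynomial Ω, (∀ n, P.coeff n = r' ((rE M).coeff n)) ∧
      P.natDegree ≤ M.card := by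
    intro M
    refine ⟨∑ i ∈ Finset.range (M.card + 1), monomial i (r' ((rE M).coeff i)), ?_, ?_⟩
    · intro n
      rw [finsetSum_coeff]
      simp only [coeff_monomial]
      rw [Finset.sum_ite_eq' (Finset.range (M.card + 1)) n]
      by_cases hn : n ∈ Finset.range (M.card + 1)
      · rw [if_pos hn]
      · rw [if_neg hn, coeff_eq_zero_of_natDegree_lt, hr'0]
        have h1 := rE_deg M
        rw [Finset.mem_range] at hn
        omega
    · refine natDegree_sum_le_of_forall_le _ _ fun i hi => ?_
      refine (natDegree_monomial_le _).trans ?_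
      have := Finset.mem_range.1 hi
      omega
  obtain ⟨PA, hPA, hPAd⟩ := hpoly A
  obtain ⟨PB, hPB, hPBd⟩ := hpoly B
  have hrel : Z * ((PA : Polynomial Ω) : PowerSeries Ω) = (PB : PowerSeries Ω) := by
    ext n
    rw [PowerSeries.coeff_mul, coeff_coe, hPB]
    have h1 := congrArg (PowerSeries.coeff n) hZE
    rw [PowerSeries.coeff_mul, hEB, coeff_coe] at h1
    rw [← h1, hr's]
    refine Finset.sum_congr rfl fun q _ => ?_
    rw [hr'm _ (hz _), coeff_coe, hPA, hEA, coeff_coe]
  have hcross : rE B * PA = rE A * PB := by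
    apply coe_injective
    rw [coe_mul, coe_mul, ← hrel, ← hEA, ← hEB, ← hZE]
    ring
  have hP0 : ∀ P : Polynomial Ω, ∀ M : Multiset Ω, (∀ n, P.coeff n = r' ((rE M).coeff n)) →
      P.coeff 0 = 1 := by
    intro P M h
    rw [h, rE_coeff_zero, hr'1]
  -- one side
  have hside : ∀ (M N : Multiset Ω) (P P' : Polynomial Ω), (∀ x ∈ M, x ∉ N) → (0 : Ω) ∉ M →
      (∀ n, P.coeff n = r' ((rE M).coeff n)) → P.natDegree ≤ M.card →
      rE N * P = rE M * P' → P = rE M ∧ P' = rE N := by
    intro M N P P' hd h0 hP hdeg hc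
    have h1 : rE M ∣ P := by
      refine (rE_coprime M N hd).dvd_of_dvd_mul_left ?_
      rw [hc]
      exact Dvd.intro _ rfl
    obtain ⟨k, hk⟩ := h1
    have hP1 := hP0 P M hP
    have hk0 : k ≠ 0 := by
      intro h
      rw [h, mul_zero] at hk
      rw [hk, coeff_zero] at hP1
      exact zero_ne_one hP1
    have h2 : k.natDegree = 0 := by
      have h3 := natDegree_mul (rE_ne_zero M) hk0
      rw [← hk, rE_deg_eq M h0] at h3
      omega
    rw [natDegree_eq_zero] at h2
    obtain ⟨c, hc'⟩ := h2
    have h4 : c = 1 := by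
      rw [hk, ← hc', coeff_mul_C, rE_coeff_zero, one_mul] at hP1
      exact hP1
    have h5 : P = rE M := by
      rw [hk, ← hc', h4, C_1, mul_one]
    refine ⟨h5, ?_⟩
    rw [h5, mul_comm] at hc
    exact (mul_left_cancel₀ (rE_ne_zero M) hc).symm
  have hboth : PA = rE A ∧ PB = rE B := by
    by_cases h0 : (0 : Ω) ∈ A
    · have h1 : (0 : Ω) ∉ B := hdis 0 h0
      have h2 := hside B A PB PA (fun x hx hxA => hdis x hxA hx) h1 hPB hPBd hcross.symm
      exact ⟨h2.2, h2.1⟩
    · exact hside A B PA PB hdis h0 hPA hPAd hcross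
  -- conclusion
  have hfin : ∀ (M : Multiset Ω) (P : Polynomial Ω), (∀ n, P.coeff n = r' ((rE M).coeff n)) →
      P = rE M → ∃ T : Polynomial ℚ, T.map (algebraMap ℚ Ω) = (M.map fun x => X - C x).prod := by
    intro M P hP hPE
    have h1 : (M.map fun x => X - C x).prod ∈ lifts (algebraMap ℚ Ω) := by
      rw [lifts_iff_coeff_lifts]
      intro i
      by_cases hi : i ≤ M.card
      · have h2 := coeff_reflect M.card (M.map fun x => X - C x).prod (M.card - i)
        rw [refl_rE, revAt_le (Nat.sub_le _ _), Nat.sub_sub_self hi] at h2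
        rw [← h2, ← hPE, hP]
        have h3 := hr'Q ((rE M).coeff (M.card - i))
        rw [hQ] at h3
        exact h3
      · rw [coeff_eq_zero_of_natDegree_lt
          (by rw [natDegree_multiset_prod_X_sub_C_eq_card]; omega)]
        exact ⟨0, map_zero _⟩
    exact (mem_lifts _).1 h1
  obtain ⟨P, hP⟩ := hfin A PA hPA hboth.1
  obtain ⟨T, hT⟩ := hfin B PB hPB hboth.2
  exact ⟨P, T, hP, hT⟩

end Pool.Agent.H4.CS
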