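import Pool.Agent.H16.CS.Targets

/-!
# If all stable subspaces split then the projector is a combination (module GOO of cps_modules)
-/

set_option autoImplicit false

namespace Pool.Agent.H4.CS

open Pool.Agent.H16.CS

section good

variable {K : Type} [Field K] {R : Type}

/-- every stable subspace of `M × N` contains the first component of its elements -/
def Good {M N : Type} [AddCommGroup M] [Module K M] [AddCommGroup N] [Module K N]
    (ρ : R → Module.End K M) (τ : R → Module.End K N) : Prop :=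
  ∀ G : Submodule K (M × N), (∀ f : R, ∀ x ∈ G, (ρ f x.1, τ f x.2) ∈ G) → ∀ x ∈ G, (x.1, 0) ∈ G

variable {M M' N : Type} [AddCommGroup M] [Module K M] [AddCommGroup M'] [Module K M']
  [AddCommGroup N] [Module K N]

lemma Good.symm {ρ : R → Module.End K M} {τ : R → Module.End K N} (h : Good ρ τ) : Good τ ρ := by
  intro G hG x hx
  obtain ⟨G', hG'⟩ : ∃ G', G' = G.comap (LinearEquiv.prodComm K M N).toLinearMap := ⟨_, rfl⟩
  have h1 : ∀ y : M × N, y ∈ G' ↔ (y.2, y.1) ∈ G := by
    intro y
    rw [hG']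
    rfl
  have h2 : ((x.2, (0 : N)) : M × N) ∈ G' := by
    refine h G' (fun f y hy => ?_) (x.2, x.1) ?_
    · rw [h1] at hy ⊢
      exact hG f _ hy
    · rw [h1]
      exact hx
  rw [h1] at h2
  have h3 := G.sub_mem hx h2
  have h4 : x - ((0 : N), x.2) = (x.1, 0) := by
    ext
    · simp
    · simp
  rw [← h4]
  exact h3

/-- transport along an injective equivariant map -/
lemma Good.of_inj {ρ : R → Module.End K M} {τ : R → Module.End K N} (h : Good ρ τ)
    {ρ' : R → Module.End K M'} (u : M' →ₗ[K] M) (hu : Function.Injective u)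
    (hρ : ∀ f x, u (ρ' f x) = ρ f (u x)) : Good ρ' τ := by
  intro G hG x hx
  obtain ⟨v, hv⟩ : ∃ v : M' × N →ₗ[K] M × N, v = u.prodMap LinearMap.id := ⟨_, rfl⟩
  have hv' : ∀ y : M' × N, v y = (u y.1, y.2) := fun y => by
    rw [hv]
    rfl
  have h1 : ((u x.1, (0 : N)) : M × N) ∈ G.map v := by
    refine h (G.map v) (fun f y hy => ?_) (u x.1, x.2) ?_
    · obtain ⟨z, hz, rfl⟩ := Submodule.mem_map.1 hy
      refine Submodule.mem_map.2 ⟨_, hG f z hz, ?_⟩
      rw [hv', hv', hρ]
    · exact Submodule.mem_map.2 ⟨x, hx, hv' x⟩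
  obtain ⟨z, hz, hzx⟩ := Submodule.mem_map.1 h1
  rw [hv'] at hzx
  have h2 : z.1 = x.1 := hu (congrArg Prod.fst hzx)
  have h3 : z.2 = 0 := congrArg Prod.snd hzx
  have h4 : z = (x.1, 0) := Prod.ext h2 h3
  rw [← h4]
  exact hz

lemma Good.prod {ρ : R → Module.End K M} {ρ' : R → Module.End K M'} {τ : R → Module.End K N}
    (h : Good ρ τ) (h' : Good ρ' τ) : Good (fun f => (ρ f).prodMap (ρ' f)) τ := by
  intro G hG x hx
  obtain ⟨⟨a, b⟩, c⟩ := x
  obtain ⟨v, hv⟩ : ∃ v : (M × M') × N →ₗ[K] M × N,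
    v = (LinearMap.fst K M M').prodMap LinearMap.id := ⟨_, rfl⟩
  have hv' : ∀ y : (M × M') × N, v y = (y.1.1, y.2) := fun y => by
    rw [hv]
    rfl
  have h1 : ((a, (0 : N)) : M × N) ∈ G.map v := by
    refine h (G.map v) (fun f y hy => ?_) (a, c) ?_
    · obtain ⟨z, hz, rfl⟩ := Submodule.mem_map.1 hy
      refine Submodule.mem_map.2 ⟨_, hG f z hz, ?_⟩
      rw [hv', hv']
      rfl
    · exact Submodule.mem_map.2 ⟨_, hx, hv' _⟩
  obtain ⟨z, hz, hzx⟩ := Submodule.mem_map.1 h1
  rw [hv'] at hzx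
  obtain ⟨⟨a', b'⟩, c'⟩ := z
  have ha : a' = a := congrArg Prod.fst hzx
  have hc : c' = 0 := congrArg Prod.snd hzx
  subst ha
  subst hc
  obtain ⟨w, hw⟩ : ∃ w : M' × N →ₗ[K] (M × M') × N,
    w = (LinearMap.inr K M M').prodMap LinearMap.id := ⟨_, rfl⟩
  have hw' : ∀ y : M' × N, w y = ((0, y.1), y.2) := fun y => by
    rw [hw]
    rfl
  have h2 : ((b - b', (0 : N)) : M' × N) ∈ G.comap w := by
    refine h' (G.comap w) (fun f y hy => ?_) (b - b', c) ?_
    · rw [Submodule.mem_comap, hw'] at hy ⊢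
      have h3 := hG f _ hy
      have h4 : ((((ρ f).prodMap (ρ' f)) ((0 : M), y.1), τ f y.2) : (M × M') × N) =
          ((0, ρ' f y.1), τ f y.2) := by
        rw [LinearMap.prodMap_apply, map_zero]
      rw [← h4]
      exact h3
    · rw [Submodule.mem_comap, hw']
      have h3 := G.sub_mem hx hz
      have h4 : (((a', b), c) : (M × M') × N) - ((a', b'), 0) = ((0, b - b'), c) := by
        ext <;> simp
      rw [← h4]
      exact h3
  rw [Submodule.mem_comap, hw'] at h2
  have h3 := G.add_mem h2 hz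
  have h4 : (((0 : M), b - b'), (0 : N)) + ((a', b'), 0) = ((a', b), 0) := by
    ext <;> simp
  rw [← h4]
  exact h3

/-- the action on tuples -/
def pwr (a : ℕ) (ρ : R → Module.End K M) (f : R) : Module.End K (Fin a → M) :=
  LinearMap.pi fun i => (ρ f).comp (LinearMap.proj i)

lemma pwr_apply (a : ℕ) (ρ : R → Module.End K M) (f : R) (x : Fin a → M) (i : Fin a) :
    pwr a ρ f x i = ρ f (x i) := rfl

lemma Good.pow {ρ : R → Module.End K M} {τ : R → Module.End K N} (h : Good ρ τ) (a : ℕ) :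
    Good (pwr a ρ) τ := by
  induction a with
  | zero =>
    intro G _ x _
    have : x.1 = 0 := Subsingleton.elim _ _
    rw [this]
    exact G.zero_mem
  | succ a ih =>
    refine (h.prod ih).of_inj ((LinearMap.proj 0).prod (LinearMap.pi fun i =>
      LinearMap.proj i.succ)) ?_ ?_
    · intro x y hxy
      have h1 : x 0 = y 0 := congrArg Prod.fst hxy
      have h2 : (fun i : Fin a => x i.succ) = fun i => y i.succ := congrArg Prod.snd hxy
      funext i
      refine Fin.cases h1 (fun j => ?_) i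
      exact congrFun h2 j
    · intro f x
      rfl

end good

theorem goo : T_GOO := by
  intro K _ ι _ H _ _ _ S _ R _ act hyp
  classical
  obtain ⟨ρ, hρ⟩ : ∃ ρ : R → Module.End K (∀ i : {i // S i}, H i.1), ρ = fun f =>
    LinearMap.pi fun i => (act f i.1).comp (LinearMap.proj i) := ⟨_, rfl⟩
  obtain ⟨τ, hτ⟩ : ∃ τ : R → Module.End K (∀ i : {i // ¬ S i}, H i.1), τ = fun f =>
    LinearMap.pi fun i => (act f i.1).comp (LinearMap.proj i) := ⟨_, rfl⟩
  have hρ' : ∀ f x i, ρ f x i = act f i.1 (x i) := by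
    intro f x i
    rw [hρ]
    rfl
  have hτ' : ∀ f x i, τ f x i = act f i.1 (x i) := by
    intro f x i
    rw [hτ]
    rfl
  -- gluing
  obtain ⟨gl, hgl⟩ : ∃ gl : ((∀ i : {i // S i}, H i.1) × (∀ i : {i // ¬ S i}, H i.1)) →ₗ[K]
      (∀ i, H i), ∀ x i, gl x i = if h : S i then x.1 ⟨i, h⟩ else x.2 ⟨i, h⟩ := by
    refine ⟨{ toFun := fun x i => if h : S i then x.1 ⟨i, h⟩ else x.2 ⟨i, h⟩
              map_add' := ?_
              map_smul' := ?_ }, fun x i => rfl⟩
    · intro x y
      funext i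
      by_cases h : S i
      · simp [h]
      · simp [h]
    · intro c x
      funext i
      by_cases h : S i
      · simp [h]
      · simp [h]
  have hgood : Good ρ τ := by
    intro G hG x hx
    have h1 := hyp (G.map gl) (fun f y hy => by
      obtain ⟨z, hz, rfl⟩ := Submodule.mem_map.1 hy
      refine Submodule.mem_map.2 ⟨_, hG f z hz, ?_⟩
      funext i
      rw [hgl, hgl]
      by_cases h : S i
      · rw [dif_pos h, dif_pos h]
        exact hρ' f z.1 ⟨i, h⟩
      · rw [dif_neg h, dif_neg h]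
        exact hτ' f z.2 ⟨i, h⟩) (gl x) (Submodule.mem_map.2 ⟨x, hx, rfl⟩)
    obtain ⟨z, hz, hzx⟩ := Submodule.mem_map.1 h1
    have h2 : z = (x.1, 0) := by
      refine Prod.ext ?_ ?_
      · funext i
        have h3 := congrFun hzx i.1
        rw [hgl, hgl, dif_pos i.2, dif_pos i.2, if_pos i.2] at h3
        exact h3
      · funext i
        have h3 := congrFun hzx i.1
        rw [hgl, dif_neg i.2, if_neg i.2] at h3
        exact h3
    rw [← h2]
    exact hz
  obtain ⟨a, ha⟩ : ∃ a, a = Module.finrank K (∀ i : {i // S i}, H i.1) := ⟨_, rfl⟩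
  obtain ⟨b, hb⟩ : ∃ b, b = Module.finrank K (∀ i : {i // ¬ S i}, H i.1) := ⟨_, rfl⟩
  let v : Module.Basis (Fin a) K (∀ i : {i // S i}, H i.1) := by
    rw [ha]
    exact Module.finBasis K _
  let w : Module.Basis (Fin b) K (∀ i : {i // ¬ S i}, H i.1) := by
    rw [hb]
    exact Module.finBasis K _
  have hgood2 : Good (pwr a ρ) (pwr b τ) := ((hgood.pow a).symm.pow b).symm
  obtain ⟨B, hB⟩ : ∃ B, B = Submodule.span K (Set.range act) := ⟨_, rfl⟩
  have hBmul : ∀ f : R, ∀ s ∈ B, act f * s ∈ B := by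
    intro f s hs
    rw [hB] at hs ⊢
    induction hs using Submodule.span_induction with
    | mem x hx =>
      obtain ⟨g, rfl⟩ := hx
      rw [← map_mul]
      exact Submodule.subset_span ⟨_, rfl⟩
    | zero =>
      rw [mul_zero]
      exact Submodule.zero_mem _
    | add x y _ _ hx hy =>
      rw [mul_add]
      exact Submodule.add_mem _ hx hy
    | smul c x _ hx =>
      rw [mul_smul_comm]
      exact Submodule.smul_mem _ _ hx
  -- evaluation at the bases
  obtain ⟨evl, hevl⟩ : ∃ evl : (∀ i, Module.End K (H i)) →ₗ[K]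
      ((Fin a → ∀ i : {i // S i}, H i.1) × (Fin b → ∀ i : {i // ¬ S i}, H i.1)),
      ∀ s, evl s = (fun k i => s i.1 (v k i), fun l i => s i.1 (w l i)) := by
    refine ⟨{ toFun := fun s => (fun k i => s i.1 (v k i), fun l i => s i.1 (w l i))
              map_add' := ?_
              map_smul' := ?_ }, fun s => rfl⟩
    · intro s s'
      rfl
    · intro c s
      rfl
  have h1B : (1 : ∀ i, Module.End K (H i)) ∈ B := by
    rw [hB, ← map_one act]
    exact Submodule.subset_span ⟨_, rfl⟩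
  have hmem := hgood2 (B.map evl) (fun f x hx => by
    obtain ⟨s, hs, rfl⟩ := Submodule.mem_map.1 hx
    refine Submodule.mem_map.2 ⟨_, hBmul f s hs, ?_⟩
    rw [hevl, hevl]
    refine Prod.ext ?_ ?_
    · funext k i
      show (act f * s) i.1 (v k i) = pwr a ρ f (fun k i => s i.1 (v k i)) k i
      rw [pwr_apply, hρ']
      rfl
    · funext k i
      show (act f * s) i.1 (w k i) = pwr b τ f (fun k i => s i.1 (w k i)) k i
      rw [pwr_apply, hτ']
      rfl) (evl 1) (Submodule.mem_map.2 ⟨1, h1B, rfl⟩)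
  obtain ⟨s, hs, hsx⟩ := Submodule.mem_map.1 hmem
  rw [hevl, hevl] at hsx
  have hs1 : ∀ k i, s i.1 (v k i) = v k i := by
    intro k i
    have := congrFun (congrFun (congrArg Prod.fst hsx) k) i
    exact this
  have hs2 : ∀ k i, s i.1 (w k i) = 0 := by
    intro k i
    have := congrFun (congrFun (congrArg Prod.snd hsx) k) i
    exact this
  have hP : (LinearMap.pi fun i : {i // S i} => (s i.1).comp (LinearMap.proj i) :
      Module.End K (∀ i : {i // S i}, H i.1)) = LinearMap.id := by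
    refine v.ext fun k => ?_
    funext i
    exact hs1 k i
  have hQ : (LinearMap.pi fun i : {i // ¬ S i} => (s i.1).comp (LinearMap.proj i) :
      Module.End K (∀ i : {i // ¬ S i}, H i.1)) = 0 := by
    refine w.ext fun k => ?_
    funext i
    exact hs2 k i
  have hfin : (fun i => if S i then (1 : Module.End K (H i)) else 0) = s := by
    funext i
    by_cases h : S i
    · rw [if_pos h]
      refine LinearMap.ext fun x => ?_
      have h2 := congrFun (LinearMap.congr_fun hP (Pi.single ⟨i, h⟩ x)) ⟨i, h⟩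
      have h3 : s i ((Pi.single (M := fun i : {i // S i} => H i.1) ⟨i, h⟩ x) ⟨i, h⟩) =
        (Pi.single (M := fun i : {i // S i} => H i.1) ⟨i, h⟩ x) ⟨i, h⟩ := h2
      rw [Pi.single_eq_same] at h3
      exact h3.symm
    · rw [if_neg h]
      refine LinearMap.ext fun x => ?_
      have h2 := congrFun (LinearMap.congr_fun hQ (Pi.single ⟨i, h⟩ x)) ⟨i, h⟩
      have h3 : s i ((Pi.single (M := fun i : {i // ¬ S i} => H i.1) ⟨i, h⟩ x) ⟨i, h⟩) = 0 := h2
      rw [Pi.single_eq_same] at h3
      rw [h3]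
      rfl
  rw [hfin, ← hB]
  exact hs

end Pool.Agent.H4.CS
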