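import Pool.Agent.H16.CS.Targets

/-!
# Maximal intersection numbers (module MUA of cps_modules)
-/

set_option autoImplicit false

open Polynomial

namespace Pool.Agent.H4.CS

open Pool.Agent.H16.CS

lemma mua_ev {Ω : Type} [Field Ω] (q : Polynomial Ω) (N : ℕ) (hN : q.natDegree ≤ N) (A : Multiset Ω) :
    (A.map fun x => q.eval x).sum = ∑ n ∈ Finset.range (N + 1), q.coeff n * psm A n := by
  induction A using Multiset.induction_on with
  | empty => simp [psm]
  | cons a s ih =>
    rw [Multiset.map_cons, Multiset.sum_cons, ih, eval_eq_sum_range' (Nat.lt_succ_of_le hN),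
      ← Finset.sum_add_distrib]
    refine Finset.sum_congr rfl fun n _ => ?_
    have : psm (a ::ₘ s) n = a ^ n + psm s n := by
      unfold psm
      rw [Multiset.map_cons, Multiset.sum_cons]
    rw [this]
    ring

lemma mua_single {Ω : Type} [Field Ω] [DecidableEq Ω] (A : Multiset Ω) (g : Ω → Ω) (y : Ω)
    (h : ∀ x ∈ A, x ≠ y → g x = 0) : (A.map g).sum = A.count y * g y := by
  induction A using Multiset.induction_on with
  | empty => simp
  | cons a s ih =>
    rw [Multiset.map_cons, Multiset.sum_cons, ih fun x hx => h x (Multiset.mem_cons_of_mem hx)]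
    by_cases hay : a = y
    · subst hay
      rw [Multiset.count_cons_self]
      push_cast
      ring
    · rw [h a (Multiset.mem_cons_self a s) hay, Multiset.count_cons_of_ne (Ne.symm hay), zero_add]

theorem mua : T_MUA := by
  intro Ω _ _ A B h
  classical
  obtain ⟨S, hS⟩ : ∃ S : Finset Ω, S = ((A + B).toFinset ∪ {1}).erase 0 := ⟨_, rfl⟩
  have hScard : S.card ≤ A.card + B.card + 1 := by
    rw [hS]
    refine (Finset.card_erase_le).trans ((Finset.card_union_le _ _).trans ?_)
    have h1 := Multiset.toFinset_card_le (A + B)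
    rw [Multiset.card_add] at h1
    rw [Finset.card_singleton]
    omega
  have hSmem : ∀ x, x ≠ 0 → (x ∈ A ∨ x ∈ B ∨ x = 1) → x ∈ S := by
    intro x hx h1
    rw [hS, Finset.mem_erase, Finset.mem_union, Multiset.mem_toFinset, Multiset.mem_add,
      Finset.mem_singleton]
    exact ⟨hx, by tauto⟩
  have key : ∀ y ∈ S, A.count y = B.count y + (if y = 1 then A.card else 0) := by
    intro y hy
    obtain ⟨q, hq⟩ : ∃ q : Polynomial Ω, q = X * ∏ z ∈ S.erase y, (X - C z) := ⟨_, rfl⟩
    have hy0 : y ≠ 0 := by
      rw [hS, Finset.mem_erase] at hy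
      exact hy.1
    have hdeg : q.natDegree ≤ A.card + B.card + 1 := by
      rw [hq]
      refine natDegree_mul_le.trans ?_
      rw [natDegree_X]
      have h1 : (∏ z ∈ S.erase y, (X - C z)).natDegree ≤ (S.erase y).card := by
        refine (natDegree_prod_le _ _).trans ?_
        refine (Finset.sum_le_card_nsmul _ _ 1 fun z _ => ?_).trans (by simp)
        rw [natDegree_X_sub_C]
      have h2 := Finset.card_erase_of_mem hy
      have h3 : 0 < S.card := Finset.card_pos.2 ⟨y, hy⟩
      omega
    have hq0 : q.coeff 0 = 0 := by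
      rw [hq, mul_comm, coeff_mul_X_zero]
    have hev0 : q.eval 0 = 0 := by
      rw [← coeff_zero_eq_eval_zero]
      exact hq0
    have hvan : ∀ x, x ≠ y → (x = 0 ∨ x ∈ S) → q.eval x = 0 := by
      intro x hxy hx
      rcases hx with hx | hx
      · rw [hx]
        exact hev0
      · rw [hq, eval_mul, eval_prod, Finset.prod_eq_zero (i := x)
          (Finset.mem_erase.2 ⟨hxy, hx⟩) (by simp), mul_zero]
    have hyne : q.eval y ≠ 0 := by
      rw [hq, eval_mul, eval_X, eval_prod]
      refine mul_ne_zero hy0 (Finset.prod_ne_zero_iff.2 fun z hz => ?_)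
      rw [eval_sub, eval_X, eval_C]
      exact sub_ne_zero.2 (Finset.mem_erase.1 hz).1.symm
    have hA := mua_ev q _ hdeg A
    have hB := mua_ev q _ hdeg B
    have h1 : q.eval 1 = ∑ n ∈ Finset.range (A.card + B.card + 1 + 1), q.coeff n := by
      rw [eval_eq_sum_range' (Nat.lt_succ_of_le hdeg)]
      refine Finset.sum_congr rfl fun n _ => ?_
      rw [one_pow, mul_one]
    have hAB : (A.map fun x => q.eval x).sum = (B.map fun x => q.eval x).sum +
        A.card * q.eval 1 := by
      rw [hA, hB, h1, Finset.mul_sum, ← Finset.sum_add_distrib]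
      refine Finset.sum_congr rfl fun n hn => ?_
      rcases Nat.eq_zero_or_pos n with h0 | h0
      · rw [h0, hq0]
        ring
      · rw [h n h0 (by have := Finset.mem_range.1 hn; omega)]
        ring
    have cl : ∀ x, (x ∈ A ∨ x ∈ B ∨ x = 1) → x = 0 ∨ x ∈ S := by
      intro x hx
      by_cases h0 : x = 0
      · exact Or.inl h0
      · exact Or.inr (hSmem x h0 hx)
    rw [mua_single A _ y fun x hx hxy => hvan x hxy (cl x (Or.inl hx)),
      mua_single B _ y fun x hx hxy => hvan x hxy (cl x (Or.inr (Or.inl hx)))] at hAB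
    by_cases hy1 : y = 1
    · rw [if_pos hy1]
      rw [hy1] at hAB hyne ⊢
      have h2 : ((A.count 1 : ℕ) : Ω) = ((B.count 1 + A.card : ℕ) : Ω) := by
        apply mul_right_cancel₀ hyne
        rw [hAB]
        push_cast
        ring
      exact_mod_cast h2
    · rw [if_neg hy1]
      rw [hvan 1 (Ne.symm hy1) (cl 1 (Or.inr (Or.inr rfl))), mul_zero, add_zero] at hAB
      have h2 := mul_right_cancel₀ hyne hAB
      rw [add_zero]
      exact_mod_cast h2
  have k1 := key 1 (hSmem 1 one_ne_zero (Or.inr (Or.inr rfl)))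
  rw [if_pos rfl] at k1
  have hc1 : A.count 1 ≤ A.card := Multiset.count_le_card 1 A
  have hA1 : A.count 1 = A.card := by omega
  have hB1 : B.count 1 = 0 := by omega
  have hA : ∀ x ∈ A, x = 1 := fun x hx => (Multiset.count_eq_card.1 hA1 x hx).symm
  refine ⟨hA, fun x hx => ?_⟩
  by_contra h0
  have k2 := key x (hSmem x h0 (Or.inr (Or.inl hx)))
  have hBx : 0 < B.count x := Multiset.count_pos.2 hx
  by_cases hx1 : x = 1
  · rw [hx1] at hBx
    omega
  · rw [if_neg hx1] at k2
    have : 0 < A.count x := by omega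
    exact hx1 (hA x (Multiset.count_pos.1 this))

end Pool.Agent.H4.CS
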